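import Mathlib

/-! Rational relations (finite transducers) and regular cross-sections. -/

namespace Pool.Agent.H.MP_e43f0d_lc

/-- Runs of a transducer with transitions `(p, x, y, q)`. -/
inductive Run {σ A : Type} (δ : Set (σ × List A × List A × σ)) : σ → List A → List A → σ → Prop
  | nil (p : σ) : Run δ p [] [] p
  | cons {p q r : σ} {x y u v : List A} : (p, x, y, q) ∈ δ → Run δ q u v r →
      Run δ p (x ++ u) (y ++ v) r

/-- `R` is accepted by a finite transducer. -/
def Rational {A : Type} (R : List A → List A → Prop) : Prop :=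
  ∃ (σ : Type) (_ : Finite σ) (δ : Set (σ × List A × List A × σ)) (I F : Set σ), δ.Finite ∧
    ∀ u v, R u v ↔ ∃ p ∈ I, ∃ q ∈ F, Run δ p u v q

/-- Every rational relation over a finite alphabet that is an equivalence relation on its domain,
with classes of at most `k` elements, has a regular cross-section. `CS ⊤` is statement (C). -/
def CS (k : ℕ∞) : Prop :=
  ∀ (A : Type) [Finite A] (R : List A → List A → Prop), Rational R → (∀ u v, R u v → R u u) →
    (∀ u v, R u v → R v u) → (∀ u v x, R u v → R v x → R u x) → (∀ u, {v | R u v}.encard ≤ k) →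
      ∃ C : Language A, C.IsRegular ∧ (∀ c ∈ C, ∃ v, R c v) ∧
        ∀ u, (∃ v, R u v) → ∃! c, c ∈ C ∧ R u c

end Pool.Agent.H.MP_e43f0d_lc
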