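import Pool.Agent.H.MP_567c26_al.A

/-! Chains of runs of a transducer inside a bounded class have a pair of tapes of bounded lag. -/

namespace Pool.Agent.H.MP_e43f0d_lc

open Pool.Agent.Lib.helper21.Cone Pool.Agent.Lib.RegKit Function

variable {σ Γ ι A : Type}

theorem bal [Finite ι] (δ : σ → Γ → σ) (s : σ) (d : ι → List Γ → ℤ)
    (ha : ∀ i x y, d i (x ++ y) = d i x + d i y) (W : List Γ)
    (h : ∀ W' : List Γ, W'.foldl δ s = W.foldl δ s → ∃ i, d i W' = 0) :
    ∃ i, ∀ X C : List Γ, X <+: W → C.foldl δ (X.foldl δ s) = X.foldl δ s → d i C = 0 := by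
  by_contra g
  push Not at g
  choose X C a b c using g
  have key : ∀ l : List ι, ∃ W' : List Γ, W'.foldl δ s = W.foldl δ s ∧
      (∀ i, ∃ X', X' <+: W' ∧ X'.foldl δ s = (X i).foldl δ s) ∧ ∀ i ∈ l, d i W' ≠ 0 := by
    intro l
    induction l with
    | nil => exact ⟨W, rfl, fun i => ⟨_, a i, rfl⟩, by simp⟩
    | cons i l ih =>
      obtain ⟨W', e1, e2, e3⟩ := ih
      obtain ⟨X', ⟨Y, rfl⟩, e4⟩ := e2 i
      obtain ⟨N, hN⟩ := (Set.finite_range fun j => (d j (X' ++ Y)).natAbs).bddAbove
      have f1 : ∀ n, (X' ++ (List.replicate n (C i)).flatten).foldl δ s = X'.foldl δ s ∧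
          ∀ j, d j (X' ++ (List.replicate n (C i)).flatten) = d j X' + n * d j (C i) := fun n => by
        induction n with
        | zero => simp
        | succ n ih =>
          rw [List.replicate_succ', List.flatten_append, ← List.append_assoc, List.foldl_append,
            ih.1, e4, List.flatten_singleton]
          exact ⟨b i, fun j => by rw [ha, ih.2]; push_cast; ring⟩
      refine ⟨X' ++ (List.replicate (N + 1) (C i)).flatten ++ Y, ?_, fun j => ?_, fun j hj => ?_⟩
      · rw [List.foldl_append, (f1 _).1, ← List.foldl_append, e1]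
      · obtain ⟨Z, z1, z2⟩ := e2 j
        rcases List.prefix_or_prefix_of_prefix z1 (List.prefix_append X' Y) with k | ⟨Z', rfl⟩
        · exact ⟨Z, (k.trans (List.prefix_append _ _)).trans (List.prefix_append _ _), z2⟩
        · exact ⟨_, (List.prefix_append_right_inj _).2 ((List.prefix_append_right_inj _).1 z1), by
            rw [List.foldl_append, (f1 _).1, ← List.foldl_append, z2]⟩
      · have k : (d j (X' ++ Y)).natAbs ≤ N := hN ⟨j, rfl⟩
        rw [ha, (f1 _).2, add_right_comm, ← ha]
        by_cases k' : d j (C i) = 0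
        · rcases List.mem_cons.1 hj with rfl | hj
          exacts [(c _ k').elim, by simpa [k'] using e3 j hj]
        · intro z
          have : -(N : ℤ) ≤ d j (X' ++ Y) ∧ d j (X' ++ Y) ≤ N := by omega
          push_cast at z
          rcases lt_or_gt_of_ne k' with k' | k' <;> nlinarith
  have := Fintype.ofFinite ι
  obtain ⟨W', e1, -, e3⟩ := key Finset.univ.toList
  obtain ⟨i, hi⟩ := h W' e1
  exact e3 i (by simp) hi

theorem bnd [Finite σ] (δ : σ → Γ → σ) (s : σ) (d : List Γ → ℤ)
    (ha : ∀ x y, d (x ++ y) = d x + d y) (h1 : ∀ x, d [x] ≤ 1) (W : List Γ)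
    (h : ∀ X C : List Γ, X <+: W → C.foldl δ (X.foldl δ s) = X.foldl δ s → d C = 0)
    (X : List Γ) (hX : X <+: W) : d X < Nat.card σ := by
  have ivt : ∀ X : List Γ, X <+: W → ∀ v : ℕ, v ≤ d X → ∃ Y, Y <+: W ∧ d Y = v := by
    intro X
    induction X using List.reverseRecOn with
    | nil =>
      have := ha [] []
      exact fun g v _ => ⟨[], g, by simp at this; omega⟩
    | append_singleton X x ih =>
      intro g v hv
      by_cases k : v ≤ d X
      · exact ih ((List.prefix_append _ _).trans g) v k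
      · have := ha X [x]
        have := h1 x
        exact ⟨_, g, by omega⟩
  by_contra g
  choose Y a b using fun v : Fin (Nat.card σ + 1) => ivt X hX v (by omega)
  have := Fintype.ofFinite σ
  obtain ⟨v, v', e, e'⟩ := Fintype.exists_ne_map_eq_of_card_lt (fun v => (Y v).foldl δ s) (by simp)
  have key : ∀ v v', Y v <+: Y v' → (Y v).foldl δ s = (Y v').foldl δ s → v = v' := by
    rintro v v' ⟨C, e⟩ e'
    have := h _ C (a v) (by rw [← List.foldl_append, e, e'])
    have := ha (Y v) C
    rw [e, b, b] at this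
    omega
  rcases List.prefix_or_prefix_of_prefix (a v) (a v') with k | k
  exacts [e (key _ _ k e'), e (key _ _ k e'.symm).symm]

def tape (t : ℕ) (W : List (ℕ × A)) : List A :=
  W.filterMap fun x => if x.1 = t then some x.2 else none

def pr (t : ℕ) (W : List (ℕ × A)) : List (A ⊕ A) := W.filterMap fun x =>
  if x.1 = t then some (.inl x.2) else if x.1 = t + 1 then some (.inr x.2) else none

theorem lefts_pr (t : ℕ) (W : List (ℕ × A)) : lefts (pr t W) = tape t W := by
  simp only [lefts, pr, tape, List.filterMap_filterMap]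
  congr 1
  funext x
  split_ifs <;> rfl

theorem rights_pr (t : ℕ) (W : List (ℕ × A)) : rights (pr t W) = tape (t + 1) W := by
  simp only [rights, pr, tape, List.filterMap_filterMap]
  congr 1
  funext x
  split_ifs <;> first | rfl | omega

theorem merge (t : ℕ) : ∀ (X : List (ℕ × A)) (Y : List (A ⊕ A)), (∀ x ∈ X, x.1 ≤ t) →
    tape t X = lefts Y → ∃ W : List (ℕ × A), (∀ x ∈ W, x.1 ≤ t + 1) ∧
      W.filter (·.1 ≤ t) = X ∧ pr t W = Y
  | X, .inr a :: Y, h, e => by
    obtain ⟨W, a1, a2, a3⟩ := merge t X Y h e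
    exact ⟨(t + 1, a) :: W, by simpa using a1, by simpa using a2, by simp [pr, ← a3]⟩
  | [], [], _, _ => ⟨[], by simp, rfl, rfl⟩
  | [], .inl _ :: _, _, e => by simp [tape] at e
  | (i, a) :: X, [], h, e => by
    have := h _ List.mem_cons_self
    have k : i ≠ t := fun k => by simp [tape, k] at e
    obtain ⟨W, a1, a2, a3⟩ := merge t X [] (fun x g => h x (List.mem_cons_of_mem _ g))
      (by simpa [tape, k] using e)
    exact ⟨(i, a) :: W, List.forall_mem_cons.2 ⟨by omega, a1⟩, by simpa [this] using a2,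
      by simpa [pr, k, show i ≠ t + 1 by omega] using a3⟩
  | (i, a) :: X, .inl b :: Y, h, e => by
    have := h _ List.mem_cons_self
    by_cases k : i = t
    · subst k
      obtain ⟨rfl, e'⟩ : a = b ∧ tape i X = lefts Y := by simpa [tape] using e
      obtain ⟨W, a1, a2, a3⟩ := merge i X Y (fun x g => h x (List.mem_cons_of_mem _ g)) e'
      exact ⟨(i, a) :: W, List.forall_mem_cons.2 ⟨by omega, a1⟩, by simpa using a2,
        by simp [pr, ← a3]⟩
    · obtain ⟨W, a1, a2, a3⟩ := merge t X (.inl b :: Y) (fun x g => h x (List.mem_cons_of_mem _ g))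
        (by simpa [tape, k] using e)
      exact ⟨(i, a) :: W, List.forall_mem_cons.2 ⟨by omega, a1⟩, by simpa [this] using a2,
        by simpa [pr, k, show i ≠ t + 1 by omega] using a3⟩
termination_by X Y => X.length + Y.length

theorem chain (w : ℕ → List (A ⊕ A)) (h : ∀ t, rights (w t) = lefts (w (t + 1))) (r : ℕ) :
    ∃ W : List (ℕ × A), (∀ x ∈ W, x.1 ≤ r) ∧ tape r W = lefts (w r) ∧ ∀ t < r, pr t W = w t := by
  induction r with
  | zero => exact ⟨(lefts (w 0)).map (0, ·), by simp, by simp [tape, List.filterMap_map], by simp⟩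
  | succ r ih =>
    obtain ⟨X, a, b, c⟩ := ih
    obtain ⟨W, a1, a2, a3⟩ := merge r X _ a b
    refine ⟨W, a1, by rw [← rights_pr, a3, h], fun t ht => ?_⟩
    rcases Nat.lt_succ_iff_lt_or_eq.1 ht with g | rfl
    · rw [← c t g, ← a2, pr, pr, List.filterMap_filter]
      congr 1
      funext x
      split_ifs <;> first | rfl | (simp_all; done) | (simp_all; omega)
    · exact a3

theorem star {L : List (A ⊕ A) → Prop} (r : Reg L) {R : List A → List A → Prop}
    (hL : ∀ w, L w → R (lefts w) (rights w)) (tr : ∀ u v x, R u v → R v x → R u x) {k : ℕ}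
    (hk : ∀ u, {v | R u v}.encard ≤ k) {P : ℕ} (hP : 0 < P) : ∃ N : ℕ, ∀ w : ℕ → List (A ⊕ A),
      (∀ t, L (w t)) → (∀ t, rights (w t) = lefts (w (t + 1))) → ∃ W : List (ℕ × A),
        (∀ t < (k + 1) * P, pr t W = w t) ∧ ∃ i j, i < j ∧ j ≤ k ∧ ∀ X, X <+: W →
          (tape ((j + 1) * P) X).length < (tape ((i + 1) * P) X).length + N := by
  obtain ⟨σ, _, δ, s, F, e⟩ := reg_iff.1 r
  let δ' : (Fin ((k + 1) * P) → σ) → ℕ × A → Fin ((k + 1) * P) → σ :=
    fun q x t => (pr t [x]).foldl δ (q t)
  have f : ∀ (W : List (ℕ × A)) q t, W.foldl δ' q t = (pr t W).foldl δ (q t) := fun W => by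
    induction W with
    | nil => exact fun _ _ => rfl
    | cons x W ih =>
      intro q t
      rw [List.foldl_cons, ih, ← List.foldl_append, pr, pr, pr, ← List.filterMap_append]
      rfl
  refine ⟨Nat.card (Fin ((k + 1) * P) → σ), fun w h1 h2 => ?_⟩
  obtain ⟨W, -, -, hW⟩ := chain w h2 ((k + 1) * P)
  let d : {p : Fin (k + 1) × Fin (k + 1) // p.1 < p.2} → List (ℕ × A) → ℤ := fun p X =>
    ((tape ((p.1.2 + 1) * P) X).length : ℤ) - (tape ((p.1.1 + 1) * P) X).length
  have ha : ∀ i x y, d i (x ++ y) = d i x + d i y := fun i x y => by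
    simp only [d, tape, List.filterMap_append, List.length_append]
    push_cast
    ring
  obtain ⟨p, hp⟩ := bal δ' (fun _ => s) d ha W fun W' g => by
    have a : ∀ t < (k + 1) * P, R (tape t W') (tape (t + 1) W') := fun t ht => by
      rw [← lefts_pr, ← rights_pr]
      have := congrFun g ⟨t, ht⟩
      rw [f, f, hW t ht] at this
      exact hL _ ((e _).2 (this ▸ (e _).1 (h1 t)))
    have b : ∀ t < (k + 1) * P, R (tape 0 W') (tape (t + 1) W') := fun t ht => by
      induction t with
      | zero => exact a 0 ht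
      | succ t ih => exact tr _ _ _ (ih (by omega)) (a _ ht)
    by_contra g'
    have inj : Injective fun i : Fin (k + 1) => tape ((i + 1) * P) W' := fun i j g => by
      by_contra ne
      rcases lt_or_gt_of_ne ne with l | l
      exacts [g' ⟨⟨(i, j), l⟩, by simp [d, g]⟩, g' ⟨⟨(j, i), l⟩, by simp [d, g]⟩]
    have := (Set.encard_le_encard (t := {v | R (tape 0 W') v}) 
      (s := Set.range fun i : Fin (k + 1) => tape ((i + 1) * P) W') (by
      rintro _ ⟨i, rfl⟩
      have := Nat.mul_le_mul_right P (Nat.succ_le_of_lt i.2)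
      have h0 := Nat.mul_pos i.val.succ_pos hP
      have := b ((i + 1) * P - 1) (by simp only [Nat.succ_eq_add_one] at *; omega)
      rwa [Nat.sub_add_cancel h0] at this)).trans (hk _)
    have := inj.encard_range.trans this
    rw [ENat.card_eq_coe_fintype_card, Fintype.card_fin, Nat.cast_le] at this
    omega
  refine ⟨W, hW, p.1.1, p.1.2, p.2, Nat.lt_succ_iff.1 p.1.2.2, fun X hX => ?_⟩
  have := bnd δ' _ (d p) (ha p) (fun x => by
    have := List.length_filterMap_le (fun x : ℕ × A => if x.1 = (p.1.2 + 1) * P then some x.2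
      else none) [x]
    simp only [d, tape, List.length_singleton] at this ⊢
    omega) W hp X hX
  simp only [d] at this
  omega

end Pool.Agent.H.MP_e43f0d_lc
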