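import Pool.Agent.H.MP_e43f0d_lc.A

/-! Regular thinning of rational equivalence relations with bounded classes. -/

namespace Pool.Agent.H.MP_e43f0d_lc

open Pool.Agent.Lib.helper21.Cone Pool.Agent.Lib.RegKit Pool.Agent.H.MP_567c26_al Function

variable {A X : Type}

@[simp] theorem lefts_app (x y : List (A ⊕ A)) : lefts (x ++ y) = lefts x ++ lefts y :=
  List.filterMap_append
@[simp] theorem rights_app (x y : List (A ⊕ A)) : rights (x ++ y) = rights x ++ rights y :=
  List.filterMap_append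

def sw (w : List (A ⊕ A)) : List (A ⊕ A) := w.map Sum.swap

@[simp] theorem lefts_sw (w : List (A ⊕ A)) : lefts (sw w) = rights w := by
  induction w with
  | nil => rfl
  | cons a w ih => cases a <;> simpa [sw] using ih

@[simp] theorem sw_sw (w : List (A ⊕ A)) : sw (sw w) = w := by simp [sw]

@[simp] theorem rights_sw (w : List (A ⊕ A)) : rights (sw w) = lefts w := by
  rw [← lefts_sw, sw_sw]

theorem sw_app (x y : List (A ⊕ A)) : sw (x ++ y) = sw x ++ sw y := List.map_append

def lag (w : List (A ⊕ A)) : ℤ := ((rights w).length : ℤ) - (lefts w).length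

theorem lag_app (x y : List (A ⊕ A)) : lag (x ++ y) = lag x + lag y := by
  simp only [lag, lefts_app, rights_app, List.length_append]
  push_cast
  ring

theorem lag_sw (x : List (A ⊕ A)) : lag (sw x) = -lag x := by simp [lag]

theorem reg_ex {ι : Type} [Finite ι] {P : ι → List X → Prop} (h : ∀ i, Reg (P i)) :
    Reg fun u => ∃ i, P i u := by
  have k : ∀ l : List ι, Reg fun u => ∃ i ∈ l, P i u := fun l => by
    induction l with
    | nil => exact (Reg.not (P := fun _ => True) reg_univ).congr (by simp)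
    | cons a l ih => exact ((h a).or ih).congr (by simp)
  have := Fintype.ofFinite ι
  exact (k Finset.univ.toList).congr (by simp)

theorem reg_app {U V : List X → Prop} (r : Reg U) (r' : Reg V) :
    Reg fun v => ∃ x y, v = x ++ y ∧ U x ∧ V y := Reg.congr (reg_mul r r') fun _ =>
  ⟨fun ⟨_, a, _, b, e⟩ => ⟨_, _, e.symm, a, b⟩, fun ⟨_, _, e, a, b⟩ => ⟨_, a, _, b, e.symm⟩⟩

theorem split {P : List X → Prop} (r : Reg P) : ∃ (σ : Type) (_ : Finite σ)
    (U V : σ → List X → Prop), (∀ p, Reg (U p)) ∧ (∀ p, Reg (V p)) ∧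
      ∀ x y, P (x ++ y) ↔ ∃ p, U p x ∧ V p y := by
  obtain ⟨σ, _, δ, s, F, e⟩ := reg_iff.1 r
  exact ⟨σ, inferInstance, fun p x => x.foldl δ s = p, fun p y => F (y.foldl δ p),
    fun p => reg_iff.2 ⟨σ, inferInstance, δ, s, (· = p), fun _ => Iff.rfl⟩,
    fun p => reg_iff.2 ⟨σ, inferInstance, δ, p, F, fun _ => Iff.rfl⟩,
    fun x y => (e _).trans (by simp)⟩

theorem lt_app [LinearOrder A] {a b c d : List A} (h : a.length = b.length) :
    a ++ c < b ++ d ↔ a < b ∨ a = b ∧ c < d := by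
  induction a generalizing b with
  | nil =>
    obtain rfl := List.length_eq_zero_iff.1 h.symm
    simp
  | cons x a ih =>
    obtain ⟨y, b, rfl⟩ := List.exists_cons_of_length_eq_add_one h.symm
    simp only [List.cons_append, List.cons_lt_cons_iff, ih (Nat.succ.inj h), List.cons.injEq]
    tauto

variable [Finite A]

theorem fl (w : List (A ⊕ A)) : w.flatMap (fun a => a.getLeft?.toList) = lefts w :=
  (List.filterMap_eq_flatMap_toList _ _).symm

theorem fr (w : List (A ⊕ A)) : w.flatMap (fun a => a.getRight?.toList) = rights w :=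
  (List.filterMap_eq_flatMap_toList _ _).symm

theorem pre_l {U : List A → Prop} (r : Reg U) : Reg fun w : List (A ⊕ A) => U (lefts w) :=
  (reg_pre _ r).congr fun w => by rw [fl]

theorem pre_r {U : List A → Prop} (r : Reg U) : Reg fun w : List (A ⊕ A) => U (rights w) :=
  (reg_pre _ r).congr fun w => by rw [fr]

theorem post_l {P : List (A ⊕ A) → Prop} (r : Reg P) : Reg fun u => ∃ w, P w ∧ lefts w = u :=
  (reg_post _ r).congr fun _ => exists_congr fun w => and_congr Iff.rfl (by rw [fl])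

theorem pre_sw {P : List (A ⊕ A) → Prop} (r : Reg P) : Reg fun w => P (sw w) :=
  (reg_pre (fun a => [a.swap]) r).congr fun w => by rw [← List.map_eq_flatMap, sw]

theorem reg_cat {S : List A → List A → Prop}
    (r : Reg fun z : List (A ⊕ A) => S (lefts z) (rights z)) :
    Reg fun v => ∃ x y, v = x ++ y ∧ S x y := by
  have e1 : ∀ x y : List A, lefts (x.map .inl ++ y.map .inr) = x := by
    simp [lefts, List.filterMap_map]
  have e2 : ∀ x y : List A, rights (x.map .inl ++ y.map .inr) = y := by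
    simp [rights, List.filterMap_map]
  refine (reg_post (fun a => [Sum.elim id id a]) (r.and (reg_app (reg_img .inl reg_univ)
    (reg_img .inr reg_univ)))).congr fun v => ⟨?_, ?_⟩
  · rintro ⟨_, ⟨a, _, _, rfl, ⟨x, -, rfl⟩, y, -, rfl⟩, rfl⟩
    rw [e1, e2] at a
    exact ⟨x, y, by simp [List.flatMap_map], a⟩
  · rintro ⟨x, y, rfl, a⟩
    exact ⟨_, ⟨by rwa [e1, e2], _, _, rfl, ⟨x, trivial, rfl⟩, y, trivial, rfl⟩,
      by simp [List.flatMap_map]⟩

theorem reg_buf [LinearOrder A] (B : ℕ) (S : ℤ → Prop) (hS : ∀ d, S d → -B ≤ d ∧ d ≤ B)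
    (T : ℤ → Prop → Prop) : Reg fun w : List (A ⊕ A) =>
      (∀ x, x <+: w → S (lag x)) ∧ T (lag w) (rights w < lefts w) := by
  have := (List.finite_length_le A B).to_subtype
  refine reg_of_col (fun w => {y : Prop × Prop × {l : List A | l.length ≤ B} ×
    {l : List A | l.length ≤ B} | (∀ x, x <+: w → S (lag x)) ∧ ∃ a b : List A, b.length = a.length ∧
      lefts w = a ++ y.2.2.1.1 ∧ rights w = b ++ y.2.2.2.1 ∧ (b < a ↔ y.1) ∧ (b = a ↔ y.2.1)})
    fun z z' e τ ⟨h1, h2⟩ => ?_
  have h0 : ∀ x, x <+: z → S (lag x) := fun x g => h1 x (g.trans (List.prefix_append _ _))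
  have := hS _ (h0 z List.prefix_rfl)
  obtain ⟨m, hm⟩ : ∃ m, m = min (lefts z).length (rights z).length := ⟨_, rfl⟩
  have l : ((rights z).take m).length = ((lefts z).take m).length := by simp; omega
  obtain ⟨a1, a, b, a2, a3, a4, a5, a6⟩ := (Set.ext_iff.1 e (_, _,
    ⟨(lefts z).drop m, by simp [lag] at this ⊢; omega⟩,
    ⟨(rights z).drop m, by simp [lag] at this ⊢; omega⟩)).1 ⟨h0, _, _, l,
      (List.take_append_drop _ _).symm, (List.take_append_drop _ _).symm, Iff.rfl, Iff.rfl⟩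
  simp only at a3 a4 a5 a6
  have k : lag z' = lag z := by
    simp only [lag, a3, a4, List.length_append, List.length_drop]
    omega
  refine ⟨fun x g => ?_, ?_⟩
  · rcases List.prefix_or_prefix_of_prefix g (List.prefix_append z' τ) with g' | ⟨y, rfl⟩
    · exact a1 x g'
    · rw [lag_app, k, ← lag_app]
      exact h1 _ ((List.prefix_append_right_inj _).2 ((List.prefix_append_right_inj _).1 g))
  · rw [lefts_app, rights_app, ← List.take_append_drop m (lefts z),
      ← List.take_append_drop m (rights z), List.append_assoc, List.append_assoc, lt_app l] at h2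
    rwa [lag_app, k, ← lag_app, lefts_app, rights_app, a3, a4, List.append_assoc, List.append_assoc,
      lt_app a2, a5, a6]

def Plus (B : ℕ) (w : List (A ⊕ A)) : Prop :=
  (∀ x, x <+: w → -B < lag x ∧ lag x ≤ B) ∧ lag w = B

def Los (L : List (A ⊕ A) → Prop) (B : ℕ) (v : List A) : Prop :=
  ∃ w1 w2, L (w1 ++ w2) ∧ Plus B w1 ∧ lefts (w1 ++ w2) = v ∧ ∀ x1 x2, L (x1 ++ x2) →
    Plus B (sw x1) → lefts (x1 ++ x2) = v → (lefts w1).length < (lefts x1).length

theorem reg_los [LinearOrder A] {L : List (A ⊕ A) → Prop} (r : Reg L) (B : ℕ) : Reg (Los L B) := by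
  have p : Reg (Plus (A := A) B) :=
    reg_buf B (fun d => -B < d ∧ d ≤ B) (fun _ h => ⟨h.1.le, h.2⟩) fun d _ => d = B
  obtain ⟨σ, _, U, V, a, b, c⟩ := split r
  choose τ _ U' V' a' b' c' using fun q => split (post_l (b q))
  refine (reg_cat (S := fun x y => (∃ q, (∃ w, (U q w ∧ Plus B w) ∧ lefts w = x) ∧
    ∃ w, V q w ∧ lefts w = y) ∧ ¬∃ q s, (∃ x1 x2, x = x1 ++ x2 ∧
      (∃ w, (U q w ∧ Plus B (sw w)) ∧ lefts w = x1) ∧ U' q s x2) ∧ V' q s y)
    ((reg_ex fun q => (pre_l (post_l ((a q).and p))).and (pre_r (post_l (b q)))).and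
      (reg_ex fun q => reg_ex fun s => (pre_l (reg_app (post_l ((a q).and (pre_sw p)))
        (a' q s))).and (pre_r (b' q s))).not)).congr fun v => ⟨?_, ?_⟩
  · rintro ⟨_, _, rfl, ⟨q, ⟨w1, ⟨g1, g2⟩, rfl⟩, w2, g3, rfl⟩, g⟩
    refine ⟨w1, w2, (c _ _).2 ⟨q, g1, g3⟩, g2, lefts_app _ _, fun x1 x2 k1 k2 k3 => ?_⟩
    by_contra k
    obtain ⟨t, e1, e2⟩ := pre_of_len ((lefts_app _ _).symm.trans k3) (not_lt.1 k)
    obtain ⟨q', k4, k5⟩ := (c _ _).1 k1
    obtain ⟨s, k6, k7⟩ := (c' q' _ _).1 ⟨x2, k5, e2⟩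
    exact g ⟨q', s, ⟨_, t, e1, ⟨x1, ⟨k4, k2⟩, rfl⟩, k6⟩, k7⟩
  · rintro ⟨w1, w2, g1, g2, rfl, g⟩
    obtain ⟨q, g3, g4⟩ := (c _ _).1 g1
    refine ⟨_, _, lefts_app _ _, ⟨q, ⟨w1, ⟨g3, g2⟩, rfl⟩, w2, g4, rfl⟩, ?_⟩
    rintro ⟨q', s, ⟨_, t, e1, ⟨x1, ⟨k4, k2⟩, rfl⟩, k6⟩, k7⟩
    obtain ⟨x2, k5, e2⟩ := (c' q' _ _).2 ⟨s, k6, k7⟩
    have := g x1 x2 ((c _ _).2 ⟨q', k4, k5⟩) k2 (by simp [e1, e2])
    rw [e1, List.length_append] at this
    omega

omit [Finite A] in
theorem ev {B : ℕ} (hB : 0 < B) (w : List (A ⊕ A)) : (∀ x, x <+: w → -B < lag x ∧ lag x < B) ∨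
    ∃ x y, w = x ++ y ∧ (Plus B x ∨ Plus B (sw x)) := by
  induction w using List.reverseRecOn with
  | nil => exact Or.inl fun x g => by simp [List.prefix_nil.1 g, lag, hB]
  | append_singleton w a ih =>
    rcases ih with h | ⟨x, y, rfl, h⟩
    · have := h w List.prefix_rfl
      have := lag_app w [a]
      have : lag [a] = 1 ∨ lag [a] = -1 := by cases a <;> simp [lag]
      by_cases g : -B < lag (w ++ [a]) ∧ lag (w ++ [a]) < B
      · exact Or.inl fun x k => (List.prefix_concat_iff.1 k).elim (fun e => e ▸ g) (h x)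
      refine Or.inr ⟨w ++ [a], [], by simp, ?_⟩
      by_cases g' : lag (w ++ [a]) = B
      · refine Or.inl ⟨fun x k => ?_, g'⟩
        rcases List.prefix_concat_iff.1 k with rfl | k
        · omega
        · have := h x k
          omega
      · refine Or.inr ⟨fun x k => ?_, by rw [lag_sw]; omega⟩
        have k' : sw x <+: w ++ [a] := by simpa only [← sw.eq_1, sw_sw] using k.map Sum.swap
        have := lag_sw x
        rcases List.prefix_concat_iff.1 k' with e | k
        · rw [e] at this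
          omega
        · have := h _ k
          omega
    · exact Or.inr ⟨x, y ++ [a], by simp, h⟩

end Pool.Agent.H.MP_e43f0d_lc
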