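import Pool.Agent.H.MP_e43f0d_lc.B
import Pool.Agent.H.MP_e43f0d_lc.Def

/-! Rational equivalence relations with bounded classes have regular cross-sections. -/

namespace Pool.Agent.H.MP_e43f0d_lc

open Pool.Agent.Lib.helper21.Cone Pool.Agent.Lib.RegKit Pool.Agent.H.MP_567c26_al Function

variable {A : Type} {R : List A → List A → Prop} {k : ℕ}

theorem not_all {L : List (A ⊕ A) → Prop} (r : Reg L) (hs : ∀ w, L w → L (sw w))
    (hL : ∀ w, L w → R (lefts w) (rights w)) (tr : ∀ u v x, R u v → R v x → R u x)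
    (hk : ∀ u, {v | R u v}.encard ≤ k) :
    ∃ B, 0 < B ∧ ∀ u, R u u → ∃ v, R u v ∧ ¬Los L B v := by
  obtain ⟨N, hN⟩ := star r hL tr hk k.factorial_pos
  refine ⟨N + 1, N.succ_pos, fun u hu => ?_⟩
  by_contra g
  push Not at g
  choose w1 w2 g1 g2 g3 g4 using fun v : {v | R u v} => g v v.2
  have := (Set.finite_of_encard_le_coe (hk u)).fintype
  let nx : {v | R u v} → {v | R u v} := fun v => ⟨_, tr _ _ _ v.2 (g3 v ▸ hL _ (g1 v))⟩
  have lg : ∀ v, (rights (w1 v)).length = (lefts (w1 v)).length + (N + 1) := fun v => by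
    have := (g2 v).2
    simp only [lag] at this
    omega
  have dec : ∀ v, (lefts (w1 (nx v))).length < (lefts (w1 v)).length + (N + 1) := fun v => by
    have := g4 (nx v) (sw (w1 v)) (sw (w2 v)) (sw_app _ _ ▸ hs _ (g1 v)) (by simpa using g2 v)
      (by simp [nx])
    rwa [lefts_sw, lg] at this
  have ne : (periodicPts nx).Nonempty := by
    have key : ∀ m n, m < n → nx^[m] ⟨u, hu⟩ = nx^[n] ⟨u, hu⟩ → (periodicPts nx).Nonempty :=
      fun m n l e => ⟨nx^[m] ⟨u, hu⟩, n - m, Nat.sub_pos_of_lt l, by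
        rw [IsPeriodicPt, IsFixedPt, ← iterate_add_apply, Nat.sub_add_cancel l.le, e]⟩
    obtain ⟨m, n, a, b⟩ := Finite.exists_ne_map_eq_of_infinite fun n : ℕ => nx^[n] ⟨u, hu⟩
    rcases lt_or_gt_of_ne a with l | l
    exacts [key _ _ l b, key _ _ l b.symm]
  obtain ⟨v, hv, mn⟩ := Set.exists_min_image _ (fun v => (lefts (w1 v)).length) (Set.toFinite _) ne
  have per : IsPeriodicPt nx k.factorial v :=
    (isPeriodicPt_factorial_card_of_mem_periodicPts hv).trans_dvd (Nat.factorial_dvd_factorial (by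
      have := hk u
      rwa [Set.encard_eq_coe_toFinset_card, Set.toFinset_card, Nat.cast_le] at this))
  obtain ⟨W, hW, i, j, ij, jk, h⟩ := hN (fun t => w1 (nx^[t] v) ++ w2 (nx^[t] v)) (fun t => g1 _)
    fun t => by rw [g3, iterate_succ_apply']
  have P0 := k.factorial_pos
  have l1 : (i + 1) * k.factorial + 1 ≤ (j + 1) * k.factorial := by nlinarith
  have l2 := Nat.mul_le_mul_right k.factorial (Nat.succ_le_succ jk)
  simp only [Nat.succ_eq_add_one] at l2
  have e0 : nx^[(i + 1) * k.factorial] v = v := per.const_mul (i + 1)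
  obtain ⟨X, hX, e⟩ := List.prefix_filterMap_iff.1 (show w1 v <+: pr ((i + 1) * k.factorial) W by
    rw [hW _ (by omega), e0]; exact List.prefix_append _ _)
  change w1 v = pr _ X at e
  have inv : ∀ t, (i + 1) * k.factorial ≤ t → t < (k + 1) * k.factorial →
      (lefts (w1 (nx^[t] v))).length + (N + 1) ≤ (tape (t + 1) X).length := by
    intro t ht
    induction t, ht using Nat.le_induction with
    | base => exact fun _ => by rw [e0, ← rights_pr, ← e, lg]
    | succ t _ ih =>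
      intro ht
      have a := ih (by omega)
      have b := dec (nx^[t] v)
      rw [← iterate_succ_apply' nx] at b
      have c : pr (t + 1) X <+: pr (t + 1) W := hX.filterMap _
      rw [hW _ ht] at c
      rcases List.prefix_or_prefix_of_prefix c (List.prefix_append _ _) with c | c
      · have := (c.filterMap Sum.getLeft?).length_le
        rw [← lefts, ← lefts, lefts_pr] at this
        exact (lt_irrefl _ (b.trans_le (a.trans this))).elim
      · have := (c.filterMap Sum.getRight?).length_le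
        rwa [← rights, ← rights, rights_pr, lg] at this
  have a := inv ((j + 1) * k.factorial - 1) (by omega) (by omega)
  have b := mn _ (mk_mem_periodicPts P0 (per.apply_iterate ((j + 1) * k.factorial - 1)))
  have c := h X hX
  rw [← lefts_pr ((i + 1) * _), ← e] at c
  rw [Nat.sub_add_cancel (by omega)] at a
  omega

variable [Finite A]

def IR (R : List A → List A → Prop) : Prop :=
  ∃ L, Reg L ∧ ∀ u v, R u v ↔ ∃ w, L w ∧ lefts w = u ∧ rights w = v

theorem thin (h : IR R) (sy : ∀ u v, R u v → R v u) (tr : ∀ u v x, R u v → R v x → R u x)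
    (hk : ∀ u, {v | R u v}.encard ≤ k) : ∃ E, Reg E ∧ (∀ u, R u u → ∃ v, R u v ∧ ¬E v) ∧
      ∀ u v, R u v → u ≠ v → ∃ x, R u x ∧ E x := by
  obtain ⟨L0, r0, e⟩ := h
  obtain ⟨L, hL⟩ : ∃ L, L = fun w => L0 w ∨ L0 (sw w) := ⟨_, rfl⟩
  have r : Reg L := hL ▸ r0.or (pre_sw r0)
  have hs : ∀ w, L w → L (sw w) := by simp [hL, or_comm]
  have h1 : ∀ w, L w → R (lefts w) (rights w) := by
    subst hL
    rintro w (g | g)
    exacts [(e _ _).2 ⟨w, g, rfl, rfl⟩, sy _ _ ((e _ _).2 ⟨_, g, by simp, by simp⟩)]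
  have h2 : ∀ u v, R u v → ∃ w, L w ∧ lefts w = u ∧ rights w = v := fun u v g =>
    ((e _ _).1 g).imp fun w g => ⟨hL ▸ Or.inl g.1, g.2⟩
  obtain ⟨B, B0, hB⟩ := not_all r hs h1 tr hk
  obtain ⟨n, ⟨ε⟩⟩ := Finite.exists_equiv_fin A
  let _ := LinearOrder.lift' ε ε.injective
  refine ⟨_, (reg_los r B).or (post_l (r.and ((reg_buf B (fun d => -B < d ∧ d < B)
    (fun _ h => ⟨h.1.le, h.2.le⟩) fun _ p => p).and (pre_r (reg_los r B)).not))),
    fun u hu => ?_, fun u v g ne => ?_⟩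
  · obtain ⟨v, ⟨a, b⟩, c⟩ := Set.exists_min_image {v | R u v ∧ ¬Los L B v} id
      ((Set.finite_of_encard_le_coe (hk u)).subset fun _ g => g.1) (hB u hu)
    refine ⟨v, a, ?_⟩
    rintro (g | ⟨w, ⟨g1, ⟨-, g2⟩, g3⟩, rfl⟩)
    exacts [b g, (c _ ⟨tr _ _ _ a (h1 _ g1), g3⟩).not_gt g2]
  by_cases z : ∃ x, R u x ∧ Los L B x
  · exact z.imp fun x g => ⟨g.1, Or.inl g.2⟩
  have pl : ∀ m x y, L (x ++ y) → Plus B x → R u (lefts (x ++ y)) → (lefts x).length ≠ m := by
    intro m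
    induction m using Nat.strong_induction_on with
    | _ m ih =>
      rintro x y a b c rfl
      refine z ⟨_, c, x, y, a, b, rfl, fun x1 x2 a' b' c' => ?_⟩
      have := b'.2
      have := mt (ih _ · _ _ (sw_app _ _ ▸ hs _ a') b' (by
        rw [← sw_app, lefts_sw]
        exact tr _ _ _ c (c' ▸ h1 _ a'))) (not_not.2 rfl)
      simp only [lag, lefts_sw, rights_sw] at *
      omega
  have bd : ∀ w, L w → R u (lefts w) → ∀ x, x <+: w → -B < lag x ∧ lag x < B := fun w a b =>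
    (ev B0 w).resolve_right (by
      rintro ⟨x, y, rfl, c | c⟩
      · exact pl _ x y a c b rfl
      · exact pl _ _ _ (sw_app _ _ ▸ hs _ a) c (by
          rw [← sw_app, lefts_sw]
          exact tr _ _ _ b (h1 _ a)) rfl)
  have uu := tr _ _ _ g (sy _ _ g)
  rcases lt_or_gt_of_ne ne with l | l
  · obtain ⟨w, a, rfl, rfl⟩ := h2 _ _ (sy _ _ g)
    exact ⟨_, g, Or.inr ⟨w, ⟨a, ⟨bd w a g, l⟩, fun c => z ⟨_, uu, c⟩⟩, rfl⟩⟩
  · obtain ⟨w, a, rfl, rfl⟩ := h2 _ _ g
    exact ⟨_, uu, Or.inr ⟨w, ⟨a, ⟨bd w a uu, l⟩, fun c => z ⟨_, g, c⟩⟩, rfl⟩⟩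

theorem cross (k : ℕ) : ∀ R : List A → List A → Prop, IR R → (∀ u v, R u v → R v u) →
    (∀ u v x, R u v → R v x → R u x) → (∀ u, {v | R u v}.encard ≤ (k + 1 : ℕ)) →
      ∃ C, Reg C ∧ (∀ c, C c → R c c) ∧ ∀ u, R u u → ∃! c, C c ∧ R u c := by
  induction k with
  | zero =>
    rintro R ⟨L, r, e⟩ sy tr hk
    have a : ∀ c, (∃ w, L w ∧ lefts w = c) ↔ R c c := fun c =>
      ⟨fun ⟨w, a, b⟩ => have := (e _ _).2 ⟨w, a, b, rfl⟩; tr _ _ _ this (sy _ _ this),
        fun g => ((e _ _).1 g).imp fun _ g => ⟨g.1, g.2.1⟩⟩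
    exact ⟨_, post_l r, fun c => (a c).1, fun u g => ⟨u, ⟨(a u).2 g, g⟩, fun v g' =>
      Set.encard_le_one_iff.1 ((hk u).trans (by simp)) _ _ g'.2 g⟩⟩
  | succ k ih =>
    intro R h sy tr hk
    obtain ⟨E, r, a, b⟩ := thin h sy tr hk
    obtain ⟨L, r', e⟩ := h
    obtain ⟨C, c1, c2, c3⟩ := ih (fun u v => R u v ∧ ¬E u ∧ ¬E v)
      ⟨_, r'.and ((pre_l r.not).and (pre_r r.not)), fun u v => ⟨fun ⟨g, g'⟩ => by
        obtain ⟨w, a, rfl, rfl⟩ := (e _ _).1 g
        exact ⟨w, ⟨a, g'⟩, rfl, rfl⟩, by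
        rintro ⟨w, ⟨a, g'⟩, rfl, rfl⟩
        exact ⟨(e _ _).2 ⟨w, a, rfl, rfl⟩, g'⟩⟩⟩
      (fun u v g => ⟨sy _ _ g.1, g.2.symm⟩)
      (fun u v x g g' => ⟨tr _ _ _ g.1 g'.1, g.2.1, g'.2.2⟩) fun u => by
        by_cases g : ∃ x, R u x ∧ E x
        · obtain ⟨x, g1, g2⟩ := g
          have := (Set.encard_le_encard (s := insert x {v | R u v ∧ ¬E u ∧ ¬E v})
            (t := {v | R u v}) (by rintro _ (rfl | g); exacts [g1, g.1])).trans (hk u)
          rwa [Set.encard_insert_of_notMem (fun g => g.2.2 g2), Nat.cast_add, Nat.cast_one,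
            ENat.add_le_add_iff_right ENat.one_ne_top] at this
        · refine (Set.encard_le_one_iff.2 fun v v' p p' => ?_).trans 
            (by exact_mod_cast Nat.le_add_left 1 k)
          rw [← by_contra fun ne => g (b u v p.1 ne), ← by_contra fun ne => g (b u v' p'.1 ne)]
    refine ⟨C, c1, fun c g => (c2 c g).1, fun u g => ?_⟩
    obtain ⟨v, p, q⟩ := a u g
    obtain ⟨c, ⟨s, t⟩, un⟩ := c3 v ⟨tr _ _ _ (sy _ _ p) p, q, q⟩
    exact ⟨c, ⟨s, tr _ _ _ p t.1⟩, fun c' g' =>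
      un c' ⟨g'.1, tr _ _ _ (sy _ _ p) g'.2, q, (c2 _ g'.1).2.1⟩⟩

theorem Rational.ir (h : Rational R) : IR R := by
  obtain ⟨σ, _, δ, I, F, hδ, e⟩ := h
  have := hδ.to_subtype
  let st : Set σ → δ → Set σ := fun T z => {q | z.1.1 ∈ T ∧ q = z.1.2.2.2}
  let f : δ → List (A ⊕ A) := fun z => z.1.2.1.map .inl ++ z.1.2.2.1.map .inr
  have e1 : ∀ z, lefts (f z) = z.1.2.1 := by simp [f, lefts, List.filterMap_map]
  have e2 : ∀ z, rights (f z) = z.1.2.2.1 := by simp [f, rights, List.filterMap_map]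
  refine ⟨_, reg_post f (L := {w | ∃ q ∈ F, q ∈ w.foldl st I})
    (reg_iff.2 ⟨_, inferInstance, st, I, fun T => ∃ q ∈ F, q ∈ T, fun _ => Iff.rfl⟩),
    fun u v => (e u v).trans ⟨?_, ?_⟩⟩
  · rintro ⟨p, hp, q, hq, r⟩
    have : ∀ {p u v q}, Run δ p u v q → ∀ T, p ∈ T → ∃ w : List δ, q ∈ w.foldl st T ∧
        lefts (w.flatMap f) = u ∧ rights (w.flatMap f) = v := by
      intro p u v q r
      induction r with
      | nil p => exact fun T g => ⟨[], g, rfl, rfl⟩
      | cons m _ ih =>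
        intro T g
        obtain ⟨w, a, rfl, rfl⟩ := ih (st T ⟨_, m⟩) ⟨g, rfl⟩
        exact ⟨⟨_, m⟩ :: w, a, by simp [e1], by simp [e2]⟩
    obtain ⟨w, a, b⟩ := this r I hp
    exact ⟨_, ⟨w, ⟨q, hq, a⟩, rfl⟩, b⟩
  · rintro ⟨_, ⟨w, ⟨q, hq, a⟩, rfl⟩, rfl, rfl⟩
    have : ∀ (w : List δ) T, q ∈ w.foldl st T →
        ∃ p ∈ T, Run δ p (lefts (w.flatMap f)) (rights (w.flatMap f)) q := by
      intro w
      induction w with
      | nil => exact fun T g => ⟨q, g, .nil q⟩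
      | cons z w ih =>
        intro T g
        obtain ⟨_, ⟨b, rfl⟩, c⟩ := ih _ g
        refine ⟨_, b, ?_⟩
        rw [List.flatMap_cons, lefts_app, rights_app, e1, e2]
        exact .cons z.2 c
    obtain ⟨p, b, c⟩ := this w I a
    exact ⟨p, b, q, hq, c⟩

end Pool.Agent.H.MP_e43f0d_lc
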